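import Pool.Agent.Y36.RF.Growth
import Pool.Agent.Y36.RF.Exist
import Pool.Agent.Y36.RF.Uniq

/-!
# Residual finiteness growth and complex Mal'cev completions

If `G₁` and `G₂` are finitely generated torsion-free nilpotent groups whose complex Mal'cev
completions are isomorphic, then their residual finiteness growths are equivalent.

The definitions are those of `Pool/Agent/TH91/RF/Defs.lean`:
`wordLen S g` is the word length, `depth g` the least index of a normal subgroup of finite index
not containing `g`, `rfGrowth S n` the maximum of `depth g` over the `g ≠ 1` of length at most `n`,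
`GrowthEquiv f h` the relation `f ≈ h` of the problem file, and a `MalcevCompletion` of `G` is a
rational Lie algebra `L` of strictly upper triangular matrices with an embedding of `G` in the
unipotent group `exp L` such that every element of `exp L` has a positive power in `G`;
`QLie` is the rational Lie algebra `L`, and `CLie` is `ℂ ⊗ L`.
-/

set_option autoImplicit false

namespace Pool.Agent.Results.MP_67ef3c_al.ComplexCompletion

open Pool.Agent.TH91.RF

/-- `G` is a finitely generated torsion-free nilpotent group. -/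
def TFN (G : Type) [Group G] : Prop :=
  Group.FG G ∧ Group.IsNilpotent G ∧ ∀ (g : G) (m : ℕ), 0 < m → g ^ m = 1 → g = 1

theorem result :
    -- the rational Mal'cev completion exists and its Lie algebra is unique up to isomorphism
    (∀ (G : Type) [Group G], TFN G → Nonempty (MalcevCompletion G) ∧
      ∀ c c' : MalcevCompletion G, Nonempty (c.QLie ≃ₗ⁅ℚ⁆ c'.QLie)) ∧
    -- isomorphic complexified Lie algebras force equivalent residual finiteness growths
    (∀ (G₁ G₂ : Type) [Group G₁] [Group G₂], TFN G₁ → TFN G₂ →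
      ∀ (c₁ : MalcevCompletion G₁) (c₂ : MalcevCompletion G₂),
      Nonempty (c₁.CLie ≃ₗ⁅ℂ⁆ c₂.CLie) →
      ∀ (S₁ : Set G₁) (S₂ : Set G₂), S₁.Finite → S₂.Finite →
      Subgroup.closure S₁ = ⊤ → Subgroup.closure S₂ = ⊤ →
      GrowthEquiv (rfGrowth S₁) (rfGrowth S₂)) := by
  refine ⟨fun G _ hG => ⟨?_, fun c c' => ?_⟩, ?_⟩
  · have := hG.1
    exact Pool.Agent.Y36.RF.exists_completion G hG.2.1 hG.2.2
  · obtain ⟨f, _⟩ := Pool.Agent.Y36.RF.unique_completion c c'
    exact ⟨f⟩
  · intro G₁ G₂ _ _ h₁ h₂ c₁ c₂ hf S₁ S₂ hS₁ hS₂ hg₁ hg₂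
    obtain ⟨f⟩ := hf
    have := h₁.2.1
    have := h₂.2.1
    exact Pool.Agent.Y36.RF.main c₁ c₂ hS₁ hS₂ hg₁ hg₂ f

end Pool.Agent.Results.MP_67ef3c_al.ComplexCompletion
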